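import Pool.Agent.N929.EZ.Poly2
import Pool.Agent.N929.EZ.WidF
import Pool.Agent.N426.EZ.XT

/-!
Self-avoiding polygons on the square lattice: regularity to all orders, in the perimeter, of the
moments of the width.
-/

set_option autoImplicit false

namespace Pool.Agent.Results.MP_c23e5f_co.AllOrders

/-- a closed nearest-neighbour loop on `ℤ²` with `m` steps, rooted at the origin and oriented,
that visits no vertex twice -/
def IsLoop (m : ℕ) (f : ZMod m → ℤ × ℤ) : Prop :=
  f 0 = 0 ∧ Function.Injective f ∧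
    ∀ i : ZMod m, |(f (i + 1)).1 - (f i).1| + |(f (i + 1)).2 - (f i).2| = 1

/-- the width (horizontal extent) of a loop -/
noncomputable def width (m : ℕ) (f : ZMod m → ℤ × ℤ) : ℕ :=
  sSup {w : ℕ | ∃ i j, w = ((f i).1 - (f j).1).natAbs}

/-- the moment of order `p` of the width of the self-avoiding polygons of perimeter `2 n`: the
average of the `p`-th power of the width over the rooted oriented polygons; `p = 1` gives the mean
width `W_n` -/
noncomputable def W (p : ℝ) (n : ℕ) : ℝ :=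
  (∑ᶠ f ∈ {f : ZMod (2 * n) → ℤ × ℤ | IsLoop (2 * n) f}, (width (2 * n) f : ℝ) ^ p) /
    ({f : ZMod (2 * n) → ℤ × ℤ | IsLoop (2 * n) f}.ncard : ℝ)

open Pool.Agent.H976R2 Pool.Agent.N929.EZ Pool.Agent.H739K

/-- the functional on words -/
noncomputable def GG (p : ℝ) (w : List Dir) : ℝ := (((mxx w - mnx w : ℤ) : ℝ)) ^ p

theorem width_word {N : ℕ} {w : List Dir} (hw : w ∈ KP N) :
    (width (N + 1) (lp (N + 1) w) : ℝ) = ((mxx w - mnx w : ℤ) : ℝ) := by
  have hl : w.length = N := (mem_SW.1 (Finset.mem_filter.1 hw).1).1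
  have h := width_eq w
  rw [hl] at h
  have e : width (N + 1) (lp (N + 1) w) = Pool.Agent.H924P.width (N + 1) (lp (N + 1) w) := rfl
  rw [e]
  exact_mod_cast h

theorem W_eq (p : ℝ) {n : ℕ} (hn : 2 ≤ n) :
    W p n = (∑ w ∈ KP (2 * n - 1), GG p w) / ((KP (2 * n - 1)).card : ℝ) := by
  obtain ⟨h1, h2, -⟩ := Pool.Agent.H739K.CONV_proof n hn
  unfold W
  have e1 : {f : ZMod (2 * n) → ℤ × ℤ | IsLoop (2 * n) f} =
    {f : ZMod (2 * n) → ℤ × ℤ | Pool.Agent.H924P.IsLoop (2 * n) f} := rfl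
  rw [e1, h2, h1 (fun f => (width (2 * n) f : ℝ) ^ p)]
  congr 1
  refine Finset.sum_congr rfl (fun w hw => ?_)
  have h3 := width_word hw
  rw [show 2 * n - 1 + 1 = 2 * n by omega] at h3
  rw [h3]
  rfl

/-- **Theorem.** For every real `p ≥ 0` and every `r ≥ 1` there is a constant `K` such that for all
`n ≥ 2` the `r`-th difference of `log ⟨W^p⟩_{2n}` is at most `K (log n / √n)^r` in absolute
value. -/
theorem result : ∀ (p : ℝ), 0 ≤ p → ∀ r : ℕ, 1 ≤ r → ∃ K : ℝ, ∀ n : ℕ, 2 ≤ n →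
      |∑ i ∈ Finset.range (r + 1), (-1 : ℝ) ^ i * (r.choose i : ℝ) *
        Real.log (W p (n + i))| ≤
        K * (Real.log n / Real.sqrt n) ^ r := by
  classical
  intro p hp r hr
  have h3p : (1 : ℝ) ≤ 3 ^ p := Real.one_le_rpow (by norm_num) hp
  have hx1 : ∀ w : List Dir, w ∈ SW w.length → sq w = 1 → 3 ≤ w.length →
      (1 : ℝ) ≤ ((mxx w - mnx w : ℤ) : ℝ) := by
    intro w hw hs h3
    have := wid_pos hw hs h3
    exact_mod_cast (by omega : 1 ≤ mxx w - mnx w)
  obtain ⟨C, hC, h⟩ := gen_poly_mean (GG p) (9 * 3 ^ p) ⌈p⌉₊ (by nlinarith)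
    (fun w => by
      unfold GG
      have := (ext_nonneg w).1
      have h1 : (0 : ℝ) ≤ ((mxx w - mnx w : ℤ) : ℝ) := by exact_mod_cast (by omega : 0 ≤ mxx w - mnx w)
      positivity)
    (fun w hw hs => by
      have h0 := (ext_nonneg w).1
      have h1 := (ext_le w).1
      unfold GG
      have h2 : ((mxx w - mnx w : ℤ) : ℝ) ≤ (w.length : ℝ) + 1 := by
        have : ((mxx w - mnx w : ℤ) : ℝ) ≤ ((w.length : ℤ) : ℝ) := by exact_mod_cast h1
        push_cast at this ⊢
        linarith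
      have h3 : (1 : ℝ) ≤ ((w.length : ℝ) + 1) ^ ⌈p⌉₊ := one_le_pow₀ (by
        have := Nat.cast_nonneg (α := ℝ) w.length
        linarith)
      have h4 : (((mxx w - mnx w : ℤ) : ℝ)) ^ p ≤ ((w.length : ℝ) + 1) ^ ⌈p⌉₊ := by
        rcases eq_or_lt_of_le h0 with h5 | h5
        · rw [h5, sub_self, Int.cast_zero]
          exact (Real.zero_rpow_le_one p).trans h3
        · exact rpow_poly (by exact_mod_cast (by omega : 1 ≤ mxx w - mnx w)) hp h2
      nlinarith)
    (fun w hw hs h3 => by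
      unfold GG
      have h1 := Real.one_le_rpow (hx1 w hw hs h3) hp
      nlinarith)
    (fun L hL st fl hfl w hw hs h3 => by
      obtain ⟨x, hx⟩ : ∃ x : ℝ, x = ((mxx w - mnx w : ℤ) : ℝ) := ⟨_, rfl⟩
      have hx1 : 1 ≤ x := by rw [hx]; exact hx1 w hw.2.1 hs h3
      have hfl' : ∀ U ⊆ Sl L 0 0 w, (((mxx (fl w U) - mnx (fl w U) : ℤ) : ℝ)) =
          x + (if (∃ q ∈ U, q.1 = mxx w) then 1 else 0) +
            (if (∃ q ∈ U, q.1 + 1 = mnx w) then 1 else 0) := by
        intro U hU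
        obtain ⟨a1, a2, -⟩ := Pool.Agent.N426.EZ.xt L hL 0 0 st fl hfl w hw U hU
        rw [a1, a2, hx]
        push_cast
        ring
      refine ⟨_, (Rp.two_hits (E := Sl L 0 0 w) (fun q => q.1 = mxx w)
        (fun q => q.1 + 1 = mnx w) (fun y => y ^ p) x).congr (fun U hU => ?_), fun U hU => ?_⟩
      · unfold GG
        rw [hfl' U hU]
        congr!
      · unfold GG
        rw [hfl' U hU]
        refine rpow_near hx1 ?_ hp
        split_ifs <;> linarith) r hr
  refine ⟨C, fun n hn => ?_⟩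
  have h1 := h n hn
  refine le_trans (le_of_eq ?_) h1
  congr 1
  refine Finset.sum_congr rfl (fun i _ => ?_)
  rw [W_eq p (by omega)]

end Pool.Agent.Results.MP_c23e5f_co.AllOrders
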