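import Pool.Agent.N223.BP.Tail
import Pool.Agent.N223.BP.Ext

/-!
Blob pictures of the self-avoiding polygons of the square lattice: width, height, area and shape of
the uniform polygon at all scales.
-/

set_option autoImplicit false

namespace Pool.Agent.Results.MP_c23e5f_co.BlobPictures

/-- a closed nearest-neighbour loop on `ℤ²` with `m` steps, rooted at the origin and oriented,
that visits no vertex twice -/
def IsLoop (m : ℕ) (f : ZMod m → ℤ × ℤ) : Prop :=
  f 0 = 0 ∧ Function.Injective f ∧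
    ∀ i : ZMod m, |(f (i + 1)).1 - (f i).1| + |(f (i + 1)).2 - (f i).2| = 1

/-- the edge from `f k` to `f (k+1)` is horizontal, joins the columns `x = a` and `x = a + 1`, and
has height larger than `b`: it lies above the unit cell `[a, a+1] × [b, b+1]` -/
def Above (m : ℕ) (f : ZMod m → ℤ × ℤ) (a b : ℤ) (k : ZMod m) : Prop :=
  (((f k).1 = a ∧ (f (k + 1)).1 = a + 1) ∨ ((f k).1 = a + 1 ∧ (f (k + 1)).1 = a)) ∧ b < (f k).2

/-- the unit cell `[a, a+1] × [b, b+1]` is enclosed by the loop: the vertical ray from the cell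
upwards crosses an odd number of edges -/
def Encl (m : ℕ) (f : ZMod m → ℤ × ℤ) (c : ℤ × ℤ) : Prop :=
  Odd (Nat.card {k : ZMod m // Above m f c.1 c.2 k})

/-- the area: the number of unit cells enclosed by the loop -/
noncomputable def area (m : ℕ) (f : ZMod m → ℤ × ℤ) : ℕ := Nat.card {c : ℤ × ℤ // Encl m f c}

/-- the width (horizontal extent) of a loop -/
noncomputable def width (m : ℕ) (f : ZMod m → ℤ × ℤ) : ℕ :=
  sSup {w : ℕ | ∃ i j, w = ((f i).1 - (f j).1).natAbs}

/-- the height (vertical extent) of a loop -/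
noncomputable def height (m : ℕ) (f : ZMod m → ℤ × ℤ) : ℕ :=
  sSup {w : ℕ | ∃ i j, w = ((f i).2 - (f j).2).natAbs}

/-- the probability of the event `E` for the uniform (rooted and oriented) self-avoiding polygon
of perimeter `2 n` -/
noncomputable def prob (n : ℕ) (E : (ZMod (2 * n) → ℤ × ℤ) → Prop) : ℝ :=
  ({f | IsLoop (2 * n) f ∧ E f}.ncard : ℝ) / ({f | IsLoop (2 * n) f}.ncard : ℝ)

/-- the mean width of the self-avoiding polygons of perimeter `2 n` -/
noncomputable def mean (n : ℕ) : ℝ :=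
  (∑ᶠ f ∈ {f : ZMod (2 * n) → ℤ × ℤ | IsLoop (2 * n) f}, (width (2 * n) f : ℝ)) /
    ({f : ZMod (2 * n) → ℤ × ℤ | IsLoop (2 * n) f}.ncard : ℝ)

/-- the loop `f` follows the loop `P` with `L` steps, enlarged by the factor `y`: at the time `τ i`
it is at `y P i`, and from then until the time `τ (i + 1)` it stays at `ℓ¹`-distance at most `y` from
there -/
def Follows {m : ℕ} (L : ℕ) (P : ZMod L → ℤ × ℤ) (y : ℕ) (τ : ℕ → ℕ) (f : ZMod m → ℤ × ℤ) : Prop :=
  ∀ i < L, f (τ i : ℕ) = ((y : ℤ) * (P i).1, (y : ℤ) * (P i).2) ∧ ∀ k : ℕ, τ i ≤ k → k < τ (i + 1) →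
    |(f k).1 - y * (P i).1| + |(f k).2 - y * (P i).2| ≤ y

/-- width, height and area of `f` are, up to boundary terms, those of `P` enlarged by `y` -/
def SizeOf {m : ℕ} (L : ℕ) (P : ZMod L → ℤ × ℤ) (y : ℕ) (f : ZMod m → ℤ × ℤ) : Prop :=
  (y * width L P ≤ width m f ∧ width m f ≤ y * (width L P + 2)) ∧
  (y * height L P ≤ height m f ∧ height m f ≤ y * (height L P + 2)) ∧
  |(area m f : ℤ) - (y : ℤ) ^ 2 * area L P| ≤ 4 * (y : ℤ) ^ 2 * L

/-- **Theorem.** Let `W`, `H`, `A` be the width, the height and the area of the uniform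
self-avoiding polygon of perimeter `2 n` on `ℤ²`. For every `κ > 0` there are `K` and integers
`1 ≤ Y_m ≤ m` such that for all `m ≥ 424`:
(1) the mean width at perimeter `2 m` is at most `129 Y_m`;
(2) for every polygon `P` with `L` steps and every `n` with `⌊2n / L⌋ = m`, the polygon of
perimeter `2 n` follows `P` enlarged by the factor `Y_m`, in blocks of `m` or `m + 2` steps, and its
width, height and area are those of `P` enlarged by `Y_m` up to boundary terms, with probability at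
least `exp (- K L (log m)^3)`;
(3) for all `k ≥ 1` and `2 ≤ n ≤ k m`, `W ≥ 256 k Y_m` has probability at most
`exp (- κ k (log m)^2)`. -/
theorem result (κ : ℝ) (hκ : 0 < κ) : ∃ (K : ℝ) (Y : ℕ → ℕ), ∀ m ≥ 424,
    (1 ≤ Y m ∧ Y m ≤ m ∧ mean m ≤ 129 * Y m) ∧
    (∀ (L : ℕ) (P : ZMod L → ℤ × ℤ) (n : ℕ), 4 ≤ L → IsLoop L P → 2 * n / L = m →
      ∃ τ : ℕ → ℕ, τ 0 = 0 ∧ τ L = 2 * n ∧ (∀ i, τ (i + 1) = τ i + m ∨ τ (i + 1) = τ i + m + 2) ∧
        Real.exp (-(K * L * Real.log m ^ 3)) ≤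
          prob n (fun f => Follows L P (Y m) τ f ∧ SizeOf L P (Y m) f)) ∧
    (∀ k n : ℕ, 1 ≤ k → 2 ≤ n → n ≤ k * m →
      prob n (fun f => 256 * k * Y m ≤ width (2 * n) f) ≤
        Real.exp (-(κ * k * Real.log m ^ 2))) := by
  obtain ⟨K, Y, hK, h⟩ := Pool.Agent.N223.BP.blob_tail κ hκ.le
  refine ⟨K, fun m => (Y m).toNat, fun m hm => ?_⟩
  obtain ⟨h1, h2, h3, h4, h5⟩ := h m hm
  have hYn : (((Y m).toNat : ℕ) : ℤ) = Y m := Int.toNat_of_nonneg (by omega)
  have hYr : (((Y m).toNat : ℕ) : ℝ) = (Y m : ℝ) := by exact_mod_cast hYn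
  have hY1 : 1 ≤ (Y m).toNat := by omega
  have hYm : (Y m).toNat ≤ m := by omega
  refine ⟨⟨hY1, hYm, ?_⟩, ?_, ?_⟩
  · simp only
    rw [hYr]
    exact h3
  · intro L P n hL hP hn
    obtain ⟨τ, g1, g2, g3, g4, g5⟩ := h5 L (Pool.Agent.N223.PS.top L P)
      (Pool.Agent.N223.PS.top_cl hL hP) (Pool.Agent.N223.PS.top_zero hP) n hn
    refine ⟨τ, g2, g3, g4, g5.trans ?_⟩
    have hn1 : 1 ≤ n := by
      by_contra hc
      have : n = 0 := by omega
      rw [this] at hn
      simp at hn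
      omega
    refine Pool.Agent.N223.BP.prob_mono hn1 ?_
    intro f hf hfol
    rw [← hYn] at hfol
    refine ⟨?_, ?_⟩
    · intro i hi
      exact ⟨hfol.ver i hi.le, hfol.nea i hi⟩
    · have hn2 : 0 < 2 * n := by omega
      exact Pool.Agent.N223.BP.fol_size hP hL hfol g1 g2 g3 hn2 hY1
  · intro k n hk hn hnk
    have h6 := h4 k n hk hn hnk
    rw [← hYr] at h6
    refine le_trans ?_ h6
    refine Pool.Agent.N223.BP.prob_mono (by omega) ?_
    intro f hf hc
    exact_mod_cast hc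

end Pool.Agent.Results.MP_c23e5f_co.BlobPictures
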