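import Pool.Agent.N949.TR.PolyAll

/-!
Self-avoiding polygons of a fixed perimeter on the square lattice: the joint law of the positions of
three arcs of the polygon is regular to all orders in the place of the middle arc along the polygon.
-/

set_option autoImplicit false

namespace Pool.Agent.Results.MP_c23e5f_co.InternalDistancesAllOrders

/-- a closed nearest-neighbour loop on `ℤ²` with `m` steps, rooted at the origin and oriented,
that visits no vertex twice -/
def IsLoop (m : ℕ) (f : ZMod m → ℤ × ℤ) : Prop :=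
  f 0 = 0 ∧ Function.Injective f ∧
    ∀ i : ZMod m, |(f (i + 1)).1 - (f i).1| + |(f (i + 1)).2 - (f i).2| = 1

/-- expectation under the uniform law on the (rooted, oriented) self-avoiding polygons of
perimeter `2 n` -/
noncomputable def E (n : ℕ) (F : (ZMod (2 * n) → ℤ × ℤ) → ℝ) : ℝ :=
  (∑ᶠ f ∈ {f : ZMod (2 * n) → ℤ × ℤ | IsLoop (2 * n) f}, F f) /
    ({f : ZMod (2 * n) → ℤ × ℤ | IsLoop (2 * n) f}.ncard : ℝ)

/-- the arc `(f(i), f(i+1), …, f(i+m))` of the polygon, with its position in the plane -/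
def arc {n : ℕ} (i m : ℕ) (f : ZMod (2 * n) → ℤ × ℤ) : Fin (m + 1) → ℤ × ℤ :=
  fun j => f ((i + j : ℕ) : ZMod (2 * n))

/-- **Theorem.** For every `k` there is `C` such that the following holds for the uniform
self-avoiding polygon `f` of perimeter `2 n` on `ℤ²`, `n ≥ 2`, all `M ≥ C (log n)²`, `s ≥ 1` and all
`p ≤ q - M`, `q + 2 k s + m ≤ r - M`, `r ≤ 2 n - 1`. Let `h` be a function with `|h| ≤ 1` of the
three arcs `f[0, p]`, `f[t, t + m]`, `f[r, 2 n - 1]` (with their positions in the plane) and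
`G(t) = E h(f[0, p], f[t, t + m], f[r, 2 n - 1])`, and let `B ≥ 0` be a bound for
`E |h|(f[0, p], f[t, t + m], f[r, 2 n - 1])` for all `t` between `q - 2 √M` and
`q + 2 k s + 2 √M` of the parity of `q`. Then the `k`-th difference of `G` at `q` with step `2 s` has
absolute value at most `C (s / √M)^k B + C exp(-M / C)`. -/
theorem result (k : ℕ) : ∃ C : ℝ, 0 < C ∧ ∀ n M s p q m r : ℕ, 2 ≤ n → 1 ≤ s →
    C * Real.log n ^ 2 ≤ M → p + M ≤ q → q + 2 * (k * s) + m + M ≤ r → r ≤ 2 * n - 1 →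
    ∀ h : (Fin (p + 1) → ℤ × ℤ) → (Fin (m + 1) → ℤ × ℤ) → (Fin (2 * n - 1 - r + 1) → ℤ × ℤ) → ℝ,
      (∀ X Y Z, |h X Y Z| ≤ 1) → ∀ B : ℝ, 0 ≤ B →
      (∀ t : ℕ, q ≤ t + 2 * Nat.sqrt M → t ≤ q + 2 * (k * s) + 2 * Nat.sqrt M →
        t % 2 = q % 2 →
        E n (fun f => |h (arc 0 p f) (arc t m f) (arc r (2 * n - 1 - r) f)|) ≤ B) →
      |∑ j ∈ Finset.range (k + 1), (-1 : ℝ) ^ j * (k.choose j : ℝ) *
        E n (fun f => h (arc 0 p f) (arc (q + 2 * s * j) m f) (arc r (2 * n - 1 - r) f))| ≤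
      C * (s / Real.sqrt M) ^ k * B + C * Real.exp (-(M / C)) := by
  classical
  obtain ⟨C0, hC0, h⟩ := Pool.Agent.N949.TR.s_trp k
  obtain ⟨C, hC⟩ : ∃ C : ℝ, C = C0 + 20 := ⟨_, rfl⟩
  have hCp : 0 < C := by rw [hC]; positivity
  refine ⟨C, hCp, fun n M s p q m r hn hs hCM hpq hqr hrn g hg B hB hBt => ?_⟩
  have hlog : (0.476 : ℝ) ≤ Real.log n ^ 2 := Pool.Agent.N949.TR.log_lo hn
  have hAM : C0 * Real.log n ^ 2 ≤ M := by
    refine le_trans ?_ hCM
    rw [hC]; gcongr; linarith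
  have hM4 : 4 ≤ M := by
    have : (4 : ℝ) ≤ M := by
      have h1 : 20 * Real.log n ^ 2 ≤ C * Real.log n ^ 2 := by
        rw [hC]; gcongr; linarith
      linarith
    exact_mod_cast this
  have hsqM : 2 * Nat.sqrt M ≤ M := by
    have h1 : Nat.sqrt M * Nat.sqrt M ≤ M := Nat.sqrt_le M
    have h2 : 2 ≤ Nat.sqrt M := by
      rw [Nat.le_sqrt]
      omega
    nlinarith
  obtain ⟨h', hh'⟩ : ∃ h' : Pool.Agent.N929.EY.TP → ℝ, ∀ X, h' X =
    g (fun j : Fin (p + 1) => X.1 j) (fun j : Fin (m + 1) => X.2.1 j)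
      (fun j : Fin (2 * n - 1 - r + 1) => X.2.2 j) := ⟨_, fun _ => rfl⟩
  have hc0 : (0 : ℝ) < ((Pool.Agent.H739K.KP (2 * n - 1)).card : ℝ) :=
    Pool.Agent.R54.AS.Fin.card_pos hn
  obtain ⟨c, hcc⟩ : ∃ c : ℝ, c = ((Pool.Agent.H739K.KP (2 * n - 1)).card : ℝ) := ⟨_, rfl⟩
  have hEeq : ∀ F : (ZMod (2 * n) → ℤ × ℤ) → ℝ, E n F =
      (∑ w ∈ Pool.Agent.H739K.KP (2 * n - 1), F (Pool.Agent.H739K.lp (2 * n) w)) / c := by
    intro F
    rw [hcc]
    exact Pool.Agent.H739K.F4x.me_eq Pool.Agent.H739K.CONV_proof hn F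
  have hpt : ∀ (w : List Pool.Agent.H976R2.Dir) (i : ℕ), i ≤ 2 * n - 1 →
      Pool.Agent.H739K.lp (2 * n) w ((i : ℕ) : ZMod (2 * n)) =
        Pool.Agent.H976R2.Lip.PP w i := by
    intro w i hi
    have : NeZero (2 * n) := ⟨by omega⟩
    unfold Pool.Agent.H739K.lp Pool.Agent.H976R2.Lip.PP
    rw [ZMod.val_natCast_of_lt (by omega)]
  have hconv : ∀ (φ : ℝ → ℝ) (t : ℕ), t + m ≤ 2 * n - 1 →
      E n (fun f => φ (g (arc 0 p f) (arc t m f) (arc r (2 * n - 1 - r) f))) =
        (∑ w ∈ Pool.Agent.H739K.KP (2 * n - 1),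
          φ (h' (Pool.Agent.N929.EY.tr p t m r (2 * n - 1 - r) w))) / c := by
    intro φ t ht
    rw [hEeq]
    congr 1
    refine Finset.sum_congr rfl (fun w _ => ?_)
    rw [hh']
    have a1 : arc 0 p (Pool.Agent.H739K.lp (2 * n) w) =
        fun j : Fin (p + 1) => Pool.Agent.N929.EY.pc 0 p w j := by
      funext j
      have hj := j.isLt
      unfold arc
      rw [hpt w _ (by omega)]
      unfold Pool.Agent.N929.EY.pc
      rw [min_eq_left (by omega)]
    have a2 : arc t m (Pool.Agent.H739K.lp (2 * n) w) =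
        fun j : Fin (m + 1) => Pool.Agent.N929.EY.pc t m w j := by
      funext j
      have hj := j.isLt
      unfold arc
      rw [hpt w _ (by omega)]
      unfold Pool.Agent.N929.EY.pc
      rw [min_eq_left (by omega)]
    have a3 : arc r (2 * n - 1 - r) (Pool.Agent.H739K.lp (2 * n) w) =
        fun j : Fin (2 * n - 1 - r + 1) =>
          Pool.Agent.N929.EY.pc r (2 * n - 1 - r) w j := by
      funext j
      have hj := j.isLt
      unfold arc
      rw [hpt w _ (by omega)]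
      unfold Pool.Agent.N929.EY.pc
      rw [min_eq_left (by omega)]
    rw [a1, a2, a3]
    rfl
  rw [← hcc] at hc0
  have key := h n M s p q m r hn hs hAM hpq hqr hrn h'
    (fun X => by rw [hh']; exact hg _ _ _) B hB (by
      intro t ht1 ht2 ht3
      have h3 := hBt t ht1 ht2 ht3
      have h4 := hconv (fun x => |x|) t (by omega)
      rw [h4, div_le_iff₀ hc0] at h3
      rw [← hcc]
      exact h3)
  rw [← hcc] at key
  have e3 : ∑ j ∈ Finset.range (k + 1), (-1 : ℝ) ^ j * (k.choose j : ℝ) *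
      E n (fun f => g (arc 0 p f) (arc (q + 2 * s * j) m f) (arc r (2 * n - 1 - r) f)) =
      (∑ d ∈ Finset.range (k + 1), (-1 : ℝ) ^ d * (k.choose d : ℝ) *
        ∑ w ∈ Pool.Agent.H739K.KP (2 * n - 1),
          h' (Pool.Agent.N929.EY.tr p (q + 2 * (s * d)) m r (2 * n - 1 - r) w)) / c := by
    rw [Finset.sum_div]
    refine Finset.sum_congr rfl (fun j hj => ?_)
    have hj' : j ≤ k := by have := Finset.mem_range.mp hj; omega
    have hsj : s * j ≤ k * s := by rw [mul_comm k s]; exact Nat.mul_le_mul_left _ hj'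
    have e4 : q + 2 * s * j = q + 2 * (s * j) := by ring
    rw [e4, hconv (fun x => x) _ (by omega), mul_div_assoc]
  have hMpos : (0 : ℝ) < M := by
    have : 0 < M := by omega
    exact_mod_cast this
  rw [e3, abs_div, abs_of_pos hc0, div_le_iff₀ hc0]
  refine key.trans ?_
  refine mul_le_mul_of_nonneg_right ?_ hc0.le
  have h6 : C0 ≤ C := by rw [hC]; linarith
  have h5 : C0 * (s / Real.sqrt M) ^ k * B ≤ C * (s / Real.sqrt M) ^ k * B := by gcongr
  have h7 : C0 * Real.exp (-(M / C0)) ≤ C * Real.exp (-(M / C)) := by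
    have h8 : Real.exp (-(M / C0)) ≤ Real.exp (-(M / C)) := by
      apply Real.exp_le_exp.mpr
      have : (M : ℝ) / C ≤ M / C0 := div_le_div_of_nonneg_left hMpos.le hC0 h6
      linarith
    gcongr
  exact add_le_add h5 h7

end Pool.Agent.Results.MP_c23e5f_co.InternalDistancesAllOrders
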