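import Pool.Agent.N932.FL.PolyArc2
import Pool.Agent.Results.MP_b1de6e_pr.DiametersGivenRest

/-!
The arcs of the uniform self-avoiding polygon of perimeter `2n` on `ℤ²` given all the rest of the
polygon: their laws have bounded densities, and their widths are at most of the order of the scale
which governs the extent of the free walk of the same length; for all arcs at once.
-/

set_option autoImplicit false

namespace Pool.Agent.Results.MP_c23e5f_co.WidthsGivenRest

open scoped Classical

/-- `ω` is an `n`-step self-avoiding walk on `ℤ²` started at the origin. -/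
def IsSAW (n : ℕ) (ω : Fin (n + 1) → ℤ × ℤ) : Prop :=
  ω 0 = (0, 0) ∧
  (∀ i : Fin n, |(ω i.succ).1 - (ω i.castSucc).1| + |(ω i.succ).2 - (ω i.castSucc).2| = 1) ∧
  Function.Injective ω

/-- The probability of the event `E` for the uniform `n`-step self-avoiding walk. -/
noncomputable def prob (n : ℕ) (E : (Fin (n + 1) → ℤ × ℤ) → Prop) : ℝ :=
  ({ω | IsSAW n ω ∧ E ω}.ncard : ℝ) / ({ω | IsSAW n ω}.ncard : ℝ)

/-- The width (horizontal extent) of a path, or of a polygon: the maximum of `x(v i) - x(v j)`. -/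
noncomputable def width {ι : Type} (v : ι → ℤ × ℤ) : ℝ :=
  ⨆ p : ι × ι, (((v p.1).1 - (v p.2).1 : ℤ) : ℝ)

/-- `f` is a self-avoiding polygon of perimeter `2n` with a root and an orientation: an injective
closed nearest-neighbour loop. -/
def IsPolygon (n : ℕ) (f : ZMod (2 * n) → ℤ × ℤ) : Prop :=
  Function.Injective f ∧
    ∀ i : ZMod (2 * n), |(f (i + 1)).1 - (f i).1| + |(f (i + 1)).2 - (f i).2| = 1

/-- The rooted oriented polygons with root at the origin (every polygon up to translation gives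
`4n` of them). -/
def polygons (n : ℕ) : Set (ZMod (2 * n) → ℤ × ℤ) := {f | f 0 = 0 ∧ IsPolygon n f}

/-- The mean width `W_n` of the polygons of perimeter `2n`. -/
noncomputable def meanWidth (n : ℕ) : ℝ :=
  (∑ᶠ f ∈ polygons n, width f) / ((polygons n).ncard : ℝ)

/-- The probability of `B` for the uniform polygon. -/
noncomputable def polyProb (n : ℕ) (B : (ZMod (2 * n) → ℤ × ℤ) → Prop) : ℝ :=
  ({f | f ∈ polygons n ∧ B f}.ncard : ℝ) / ((polygons n).ncard : ℝ)

/-- The times strictly between `s` and `s + m`. -/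
def between (n : ℕ) (s : ZMod (2 * n)) (m : ℕ) : Set (ZMod (2 * n)) :=
  {i | ∃ j : ℕ, 1 ≤ j ∧ j < m ∧ i = s + j}

/-- The arc of `f` from `s` to `s + m`, moved to the origin. -/
def arc (n : ℕ) (s : ZMod (2 * n)) (m : ℕ) (f : ZMod (2 * n) → ℤ × ℤ) : Fin (m + 1) → ℤ × ℤ :=
  fun k => f (s + (k.1 : ZMod (2 * n))) - f s

/-- The polygons which agree with `f` at all the times which are not strictly between `s` and
`s + m`. -/
def agree (n : ℕ) (s : ZMod (2 * n)) (m : ℕ) (f : ZMod (2 * n) → ℤ × ℤ) :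
    Set (ZMod (2 * n) → ℤ × ℤ) :=
  {g | IsPolygon n g ∧ ∀ i, i ∉ between n s m → g i = f i}

/-- The conditional probability, given all the rest of the polygon, that the arc from `s` to `s + m`
has the property `B`. -/
noncomputable def given (n : ℕ) (s : ZMod (2 * n)) (m : ℕ) (f : ZMod (2 * n) → ℤ × ℤ)
    (B : (Fin (m + 1) → ℤ × ℤ) → Prop) : ℝ :=
  ({g | g ∈ agree n s m f ∧ B (arc n s m g)}.ncard : ℝ) / ((agree n s m f).ncard : ℝ)

/-- The conditional mean, given all the rest of the polygon, of the function `F` of the arc from `s`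
to `s + m`. -/
noncomputable def meanGiven (n : ℕ) (s : ZMod (2 * n)) (m : ℕ) (f : ZMod (2 * n) → ℤ × ℤ)
    (F : (Fin (m + 1) → ℤ × ℤ) → ℝ) : ℝ :=
  (∑ᶠ g ∈ agree n s m f, F (arc n s m g)) / ((agree n s m f).ncard : ℝ)

theorem width_nonneg {ι : Type} [Finite ι] [Nonempty ι] (v : ι → ℤ × ℤ) : 0 ≤ width v := by
  obtain ⟨i⟩ := ‹Nonempty ι›
  have h := le_ciSup (f := fun p : ι × ι => (((v p.1).1 - (v p.2).1 : ℤ) : ℝ))
    (Set.finite_range _).bddAbove (i, i)
  unfold width
  refine le_trans ?_ h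
  simp

open MP_b1de6e_pr.DiametersGivenRest in
theorem coord_le (x : ℤ × ℤ) : ((x.1 : ℤ) : ℝ) ≤ len x := by
  unfold len
  refine (le_abs_self _).trans ?_
  rw [← Real.sqrt_sq_eq_abs]
  exact Real.sqrt_le_sqrt (by nlinarith [sq_nonneg (x.2 : ℝ)])

open MP_b1de6e_pr.DiametersGivenRest in
theorem width_le {m : ℕ} (v : Fin (m + 1) → ℤ × ℤ) : width v ≤ diam m v := by
  unfold width
  refine ciSup_le (fun p => ?_)
  refine le_trans ?_ (le_ciSup (f := fun p : Fin (m + 1) × Fin (m + 1) => len (v p.1 - v p.2))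
    (Set.finite_range _).bddAbove p)
  have h := coord_le (v p.1 - v p.2)
  rw [Prod.fst_sub] at h
  exact h

open Pool.Agent.N932.FL Pool.Agent.N932.FL.Poly in
/-- **The widths of the arcs given all the rest of the polygon.** For every `κ ≥ 1` there are `K > 0`
and integers `1 ≤ Y_m ≤ m` (`m ≥ 424`) such that, for the uniform self-avoiding walks and polygons
on `ℤ²`:
(0) for all `m ≥ 424` the `m`-step walk has width between `Y_m` and `3 Y_m` with probability at least
`exp (- K (log m)³)`, and width at least `390 k Y_m` with probability at most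
`exp (- κ k (log m)²)`, for all `k ≥ 1`; and the mean width `W_n` of the polygons of perimeter `2n` is at most
`K Y_{2n-1}` if `2n - 1 ≥ 424`;
(1) for all `n ≥ 2` and `x ≥ 0`, for the uniform polygon `f` of perimeter `2n`, with probability at
least `1 - exp (-x)`, for all `s` and all `2 ≤ m < 2n` at once, with `E = K (log n)² + x`: given all
the rest of the polygon, the arc from `s` to `s + m` (moved to the origin) has any property `B` with
conditional probability at most `exp E` times the probability of `B` for the uniform `m`-step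
self-avoiding walk; and if `m ≥ 424`, the width of the arc is at least `390 k Y_m` with conditional
probability at most `exp (E - κ k (log m)²)`, for all `k ≥ 1`, and its conditional mean is at most
`390 Y_m (3 + E / (κ (log m)²))`. -/
theorem result (κ : ℝ) (hκ : 1 ≤ κ) : ∃ (K : ℝ) (Y : ℕ → ℕ), 0 < K ∧
    (∀ m ≥ 424, 1 ≤ Y m ∧ Y m ≤ m ∧
      Real.exp (-(K * Real.log m ^ 3)) ≤
        prob m (fun v => Y m ≤ width v ∧ width v ≤ 3 * Y m) ∧
      ∀ k : ℕ, 1 ≤ k →
        prob m (fun v => 390 * k * Y m ≤ width v) ≤ Real.exp (-(κ * k * Real.log m ^ 2))) ∧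
    (∀ n : ℕ, 424 ≤ 2 * n - 1 → meanWidth n ≤ K * Y (2 * n - 1)) ∧
    ∀ n : ℕ, 2 ≤ n → ∀ x : ℝ, 0 ≤ x →
      polyProb n (fun f => ¬ ∀ (s : ZMod (2 * n)) (m : ℕ), 2 ≤ m → m < 2 * n →
        (∀ B : (Fin (m + 1) → ℤ × ℤ) → Prop,
          given n s m f B ≤ Real.exp (K * Real.log n ^ 2 + x) * prob m B) ∧
        (424 ≤ m →
          (∀ k : ℕ, 1 ≤ k → given n s m f (fun v => 390 * k * Y m ≤ width v) ≤
            Real.exp (K * Real.log n ^ 2 + x - κ * k * Real.log m ^ 2)) ∧
          meanGiven n s m f width ≤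
            390 * Y m * (3 + (K * Real.log n ^ 2 + x) / (κ * Real.log m ^ 2)))) ≤
        Real.exp (-x) := by
  obtain ⟨K1, Y, h1⟩ := MP_b1de6e_pr.WalkPictures.result κ (by linarith)
  obtain ⟨K2, hK2, h2⟩ := arc_dens
  obtain ⟨K3, hK3, h3⟩ := loops_dens
  have hw : ∀ m, {ω | IsSAW m ω} = sqLat.walks m := MP_b1de6e_pr.DiametersGivenRest.walks_eq
  have hprob : ∀ (m : ℕ) (B : (Fin (m + 1) → ℤ × ℤ) → Prop), prob m B =
      ((sqLat.walks m ∩ {ω | B ω}).ncard : ℝ) / (sqLat.walks m).ncard := by
    intro m B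
    unfold prob
    rw [← hw]
    rfl
  have htail : ∀ m ≥ 424, ∀ k : ℕ, 1 ≤ k →
      prob m (fun v => 390 * k * Y m ≤ width v) ≤ Real.exp (-(κ * k * Real.log m ^ 2)) := by
    intro m hm k hk
    have h4 := (h1 m hm).2.2 k m hk (Nat.le_mul_of_pos_left m hk)
    refine le_trans ?_ h4
    unfold prob MP_b1de6e_pr.WalkPictures.prob
    refine div_le_div_of_nonneg_right ?_ (Nat.cast_nonneg _)
    refine Nat.cast_le.2 (Set.ncard_le_ncard ?_ ?_)
    · rintro v ⟨h5, h6⟩
      exact ⟨h5, h6.trans (width_le v)⟩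
    · refine (sqLat.finite m).subset ?_
      rintro v ⟨h5, -⟩
      rw [← hw]
      exact h5
  have hloga : ∀ m : ℕ, 424 ≤ m → Real.log 2 ≤ κ * Real.log (m : ℝ) ^ 2 := by
    intro m hm
    have hl2 := Real.log_two_gt_d9
    have h16 : Real.log 16 ≤ Real.log m := by
      refine Real.log_le_log (by norm_num) ?_
      exact_mod_cast (by omega : 16 ≤ m)
    have h17 : Real.log 16 = 4 * Real.log 2 := by
      rw [show (16 : ℝ) = 2 ^ 4 by norm_num, Real.log_pow]
      norm_num
    rw [h17] at h16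
    have h5 : Real.log 2 ≤ Real.log (m : ℝ) ^ 2 := by nlinarith
    have h6 : Real.log (m : ℝ) ^ 2 ≤ κ * Real.log (m : ℝ) ^ 2 :=
      le_mul_of_one_le_left (sq_nonneg _) hκ
    linarith
  refine ⟨K2 + 390 * (3 + K3) + |K1|, Y, by positivity,
    fun m hm => ⟨(h1 m hm).1.1, (h1 m hm).1.2.1, ?_, htail m hm⟩, fun n hn => ?_,
    fun n hn x hx => ?_⟩
  · -- the width of the walk is of the order of the scale with not too small probability
    obtain ⟨-, a4, -⟩ := h1 m hm
    obtain ⟨P, hPP⟩ : ∃ P : Fin (1 + 1) → ℤ × ℤ, P = ![(0, 0), (1, 0)] := ⟨_, rfl⟩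
    have hP0 : P 0 = (0, 0) := by rw [hPP]; rfl
    have hP1 : P 1 = (1, 0) := by rw [hPP]; rfl
    have hP : MP_b1de6e_pr.WalkPictures.IsSAW 1 P := by
      rw [hPP]
      refine ⟨rfl, ?_, ?_⟩
      · intro i
        fin_cases i
        simp
      · intro i j h
        fin_cases i <;> fin_cases j <;> simp_all
    obtain ⟨τ, t0, t1, -, b⟩ := a4 1 P m le_rfl hP (Nat.div_one m)
    have c1 : Real.exp (-((K2 + 390 * (3 + K3) + |K1|) * Real.log m ^ 3)) ≤
        Real.exp (-(K1 * ((1 : ℕ) : ℝ) * Real.log m ^ 3)) := by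
      refine Real.exp_le_exp.2 (neg_le_neg ?_)
      rw [Nat.cast_one, mul_one]
      refine mul_le_mul_of_nonneg_right ?_ (pow_nonneg (Real.log_natCast_nonneg m) 3)
      have := le_abs_self K1
      linarith
    refine c1.trans (b.trans ?_)
    show (({ω | IsSAW m ω ∧ _}.ncard : ℕ) : ℝ) / (({ω | IsSAW m ω}.ncard : ℕ) : ℝ) ≤ _
    unfold prob
    refine div_le_div_of_nonneg_right ?_ (Nat.cast_nonneg _)
    have hfin : {ω : Fin (m + 1) → ℤ × ℤ | IsSAW m ω}.Finite := by
      rw [hw]
      exact sqLat.finite m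
    refine Nat.cast_le.2 (Set.ncard_le_ncard ?_ (hfin.subset fun ω hω => hω.1))
    rintro ω ⟨hω, hfol, -⟩
    have hx : ∀ k : Fin (m + 1), -(Y m : ℤ) ≤ (ω k).1 ∧ (ω k).1 ≤ 2 * (Y m : ℤ) := by
      intro k
      by_cases hk : (k : ℕ) < τ 1
      · have h5 := (hfol 0 k).2 (by rw [show ((0 : Fin (1 + 1)) : ℕ) = 0 from rfl, t0]; omega)
          (fun _ => hk)
        rw [hP0] at h5
        simp only [mul_zero, sub_zero] at h5
        have h6 := abs_nonneg (ω k).2
        have h7 : |(ω k).1| ≤ (Y m : ℤ) := by omega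
        rw [abs_le] at h7
        omega
      · have h5 := (hfol 1 k).2 (not_lt.1 hk)
          (fun h => absurd h (by rw [show ((1 : Fin (1 + 1)) : ℕ) = 1 from rfl]; omega))
        rw [hP1] at h5
        simp only [mul_one, mul_zero, sub_zero] at h5
        have h6 := abs_nonneg (ω k).2
        have h7 : |(ω k).1 - (Y m : ℤ)| ≤ (Y m : ℤ) := by omega
        rw [abs_le] at h7
        omega
    have hk1 : τ 1 < m + 1 := by omega
    have h8 : ω ⟨τ 1, hk1⟩ = ((Y m : ℤ), 0) := by
      have h5 := (hfol 1 ⟨τ 1, hk1⟩).1 rfl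
      rw [hP1] at h5
      simpa using h5
    have h9 : ω 0 = (0, 0) := hω.1
    refine ⟨hω, ?_, ?_⟩
    · have h10 := le_ciSup (f := fun p : Fin (m + 1) × Fin (m + 1) =>
        (((ω p.1).1 - (ω p.2).1 : ℤ) : ℝ)) (Set.finite_range _).bddAbove (⟨τ 1, hk1⟩, 0)
      unfold width
      refine le_trans (le_of_eq ?_) h10
      simp only [h8, h9]
      simp
    · unfold width
      refine ciSup_le (fun p => ?_)
      have h11 := (hx p.1).2
      have h12 := (hx p.2).1
      have h13 : (ω p.1).1 - (ω p.2).1 ≤ 3 * (Y m : ℤ) := by omega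
      exact_mod_cast h13
  · -- the mean width of the polygons
    have hn2 : 2 ≤ n := by omega
    have hn1 : 1 ≤ n := by omega
    have : NeZero (2 * n) := ⟨by omega⟩
    obtain ⟨hpos, hd⟩ := h3 n hn2
    have hLf : (loops n).Finite := loops_fin hn1
    have hne : hLf.toFinset.Nonempty := by
      rw [Set.Finite.toFinset_nonempty]
      exact (Set.ncard_pos hLf).1 hpos
    have hY : (1 : ℝ) ≤ Y (2 * n - 1) := by exact_mod_cast (h1 _ hn).1.1
    have hq : (0 : ℝ) < 390 * Y (2 * n - 1) := by linarith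
    have hac : ((loops n).ncard : ℝ) = hLf.toFinset.card := by
      rw [Set.ncard_eq_toFinset_card _ hLf]
    have hwe : ∀ f : ZMod (2 * n) → ℤ × ℤ, width f ≤ width (e n f) := by
      intro f
      unfold width
      refine ciSup_le (fun p => ?_)
      have hlt1 := p.1.val_lt
      have hlt2 := p.2.val_lt
      have h5 := le_ciSup (f := fun p : Fin (2 * n - 1 + 1) × Fin (2 * n - 1 + 1) =>
        (((e n f p.1).1 - (e n f p.2).1 : ℤ) : ℝ)) (Set.finite_range _).bddAbove
        (⟨p.1.val, by omega⟩, ⟨p.2.val, by omega⟩)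
      refine le_trans (le_of_eq ?_) h5
      show _ = (((f ((p.1.val : ℕ) : ZMod (2 * n))).1 -
        (f ((p.2.val : ℕ) : ZMod (2 * n))).1 : ℤ) : ℝ)
      rw [ZMod.natCast_zmod_val, ZMod.natCast_zmod_val]
    have h5 := mean_tail hLf.toFinset hne (fun f => width f)
      (fun f _ => width_nonneg f) hq (hloga _ hn)
      (by positivity : (0 : ℝ) ≤ K3 * Real.log n ^ 2) (fun k hk => by
        have h6 := hd {v | 390 * k * Y (2 * n - 1) ≤ width v}
        have h7 := htail (2 * n - 1) hn k hk
        rw [hprob] at h7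
        have h8 : ((hLf.toFinset.filter (fun f => (k : ℝ) * (390 * Y (2 * n - 1)) ≤ width f)).card
            : ℝ) ≤ (loops n ∩ {f | e n f ∈ {v | 390 * k * Y (2 * n - 1) ≤ width v}}).ncard := by
          rw [← Set.ncard_coe_finset]
          refine Nat.cast_le.2 (Set.ncard_le_ncard ?_ (hLf.subset Set.inter_subset_left))
          intro f hf
          rw [Finset.mem_coe, Finset.mem_filter, Set.Finite.mem_toFinset] at hf
          refine ⟨hf.1, ?_⟩
          show 390 * (k : ℝ) * Y (2 * n - 1) ≤ width (e n f)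
          refine le_trans (le_of_eq (by ring)) (hf.2.trans (hwe f))
        rw [← hac]
        refine (div_le_div_of_nonneg_right h8 (Nat.cast_nonneg _)).trans (h6.trans ?_)
        refine (mul_le_mul_of_nonneg_left h7 (Real.exp_pos _).le).trans (le_of_eq ?_)
        rw [← Real.exp_add]
        congr 1
        ring)
    unfold meanWidth
    change (∑ᶠ f ∈ loops n, width f) / ((loops n).ncard : ℝ) ≤ _
    rw [finsum_mem_eq_finite_toFinset_sum _ hLf, hac]
    refine h5.trans ?_
    have hlog : K3 * Real.log n ^ 2 / (κ * Real.log ((2 * n - 1 : ℕ) : ℝ) ^ 2) ≤ K3 := by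
      have hn2' : (2 : ℝ) ≤ n := by exact_mod_cast hn2
      have h6 : Real.log (n : ℝ) ≤ Real.log ((2 * n - 1 : ℕ) : ℝ) := by
        refine Real.log_le_log (by linarith) ?_
        exact_mod_cast (by omega : n ≤ 2 * n - 1)
      have h7 : 0 ≤ Real.log (n : ℝ) := Real.log_nonneg (by linarith)
      have h8 : Real.log (n : ℝ) ^ 2 ≤ Real.log ((2 * n - 1 : ℕ) : ℝ) ^ 2 :=
        pow_le_pow_left₀ h7 h6 2
      have h9 : Real.log ((2 * n - 1 : ℕ) : ℝ) ^ 2 ≤
          κ * Real.log ((2 * n - 1 : ℕ) : ℝ) ^ 2 := le_mul_of_one_le_left (sq_nonneg _) hκ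
      have hl2 := Real.log_two_gt_d9
      have h10 := hloga _ hn
      rw [div_le_iff₀ (by linarith)]
      exact mul_le_mul_of_nonneg_left (h8.trans h9) hK3.le
    have h6 : 390 * (Y (2 * n - 1) : ℝ) *
        (3 + K3 * Real.log n ^ 2 / (κ * Real.log ((2 * n - 1 : ℕ) : ℝ) ^ 2)) ≤
        390 * (Y (2 * n - 1) : ℝ) * (3 + K3) :=
      mul_le_mul_of_nonneg_left (by linarith) hq.le
    refine h6.trans ?_
    have h7 : 0 ≤ |K1| * (Y (2 * n - 1) : ℝ) := by positivity
    nlinarith
  · -- the arcs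
    have hn1 : 1 ≤ n := by omega
    have : NeZero (2 * n) := ⟨by omega⟩
    have h4 := h2 n hn x
    have hLf : (loops n).Finite := loops_fin hn1
    have hpos : (0 : ℝ) < (loops n).ncard := by exact_mod_cast (h3 n hn).1
    unfold polyProb
    change (({f | f ∈ loops n ∧ _}).ncard : ℝ) / ((loops n).ncard : ℝ) ≤ _
    rw [div_le_iff₀ hpos]
    refine le_trans ?_ h4
    refine Nat.cast_le.2 (Set.ncard_le_ncard ?_ (hLf.subset Set.inter_subset_left))
    rintro f ⟨hf, hbad⟩
    refine ⟨hf, fun hgood => hbad (fun s m hm1 hm2 => ?_)⟩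
    obtain ⟨E, hE⟩ : ∃ E : ℝ, E = (K2 + 390 * (3 + K3) + |K1|) * Real.log n ^ 2 + x := ⟨_, rfl⟩
    have hE0 : 0 ≤ E := by rw [hE]; positivity
    rw [← hE]
    have hag : agree n s m f = rer n (arcS n s m) f := rfl
    have hrf : (agree n s m f).Finite := by
      have hk : s ∉ arcS n s m := arcS_not hm2
      rw [hag]
      exact (rer_rot hn1 hk hf.2).1
    have hB : ∀ B : (Fin (m + 1) → ℤ × ℤ) → Prop,
        given n s m f B ≤ Real.exp E * prob m B := by
      intro B
      have h5 := hgood s m hm1 hm2 {v | B v}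
      rw [hprob]
      refine le_trans h5 ?_
      refine mul_le_mul_of_nonneg_right (Real.exp_le_exp.2 ?_) (by positivity)
      rw [hE]
      have h6 : 0 ≤ (390 * (3 + K3) + |K1|) * Real.log n ^ 2 := by positivity
      nlinarith
    refine ⟨hB, fun hm => ?_⟩
    have htl : ∀ k : ℕ, 1 ≤ k → given n s m f (fun v => 390 * k * Y m ≤ width v) ≤
        Real.exp (E - κ * k * Real.log m ^ 2) := by
      intro k hk
      refine (hB _).trans ?_
      refine (mul_le_mul_of_nonneg_left (htail m hm k hk) (Real.exp_pos _).le).trans (le_of_eq ?_)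
      rw [← Real.exp_add]
      rfl
    refine ⟨htl, ?_⟩
    have hAne : hrf.toFinset.Nonempty := by
      rw [Set.Finite.toFinset_nonempty]
      exact ⟨f, hf.2, fun i _ => rfl⟩
    have hY : (1 : ℝ) ≤ Y m := by exact_mod_cast (h1 m hm).1.1
    have hq : (0 : ℝ) < 390 * Y m := by linarith
    have hac : ((agree n s m f).ncard : ℝ) = hrf.toFinset.card := by
      rw [Set.ncard_eq_toFinset_card _ hrf]
    have h5 := mean_tail hrf.toFinset hAne (fun g => width (arc n s m g))
      (fun g _ => width_nonneg _) hq (hloga m hm) hE0 (fun k hk => by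
        have h6 := htl k hk
        unfold given at h6
        have h7 : {g | g ∈ agree n s m f ∧ 390 * k * Y m ≤ width (arc n s m g)} =
            ((hrf.toFinset.filter (fun g => (k : ℝ) * (390 * Y m) ≤ width (arc n s m g)) :
              Finset _) : Set (ZMod (2 * n) → ℤ × ℤ)) := by
          rw [Finset.coe_filter]
          ext g
          simp only [Set.mem_ofPred_eq, Set.Finite.mem_toFinset]
          refine and_congr_right (fun _ => ?_)
          rw [show (390 : ℝ) * k * Y m = k * (390 * Y m) by ring]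
        rw [h7, Set.ncard_coe_finset, hac] at h6
        refine h6.trans (le_of_eq ?_)
        congr 1
        ring)
    unfold meanGiven
    rw [hac, finsum_mem_eq_finite_toFinset_sum _ hrf]
    exact h5

end Pool.Agent.Results.MP_c23e5f_co.WidthsGivenRest
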